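import Pool.Agent.helper80.HM.SpecA

/-! # Row hm:GBK: a non exceptional clique in a block -/

set_option autoImplicit false

namespace Pool.Agent.HM

open Finset Pool.Agent.helper33.Mod

theorem GBK : GBK_stmt := by
  intro M a t S k c σ l L N g lv d V' T β β' F r J φ m X hrun happ hTV hTc hm hmono hlv hβ hmf
    hXK hX hcard
  have h1 : ∃ Q ∈ X, ¬ ∃ i, lv i ≤ d ∧ g i (orI (gQ Q) β') = true ∧ ¬ AccQ l (F i) Q := by
    by_contra hc
    have hsub : X ⊆ flt (KS k V' T) fun Q => ∃ i, lv i ≤ d ∧ g i (orI (gQ Q) β') = true ∧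
        ¬ AccQ l (F i) Q := by
      intro Q hQ
      refine mem_flt.mpr ⟨hXK hQ, ?_⟩
      by_contra hn
      exact hc ⟨Q, hQ, hn⟩
    have h2 := card_le_card hsub
    have h3 := happ.pos T hTV hTc
    have h4 := (Nat.cast_le (α := ℝ)).mpr h2
    linarith
  obtain ⟨Q, hQX, hQ⟩ := h1
  have h2 : m (orI (gQ Q) β') = true := mono_true hmono (orI_mono le_rfl hβ) (hX Q hQX)
  have h3 : ∃ j, g (J j) (orI (gQ Q) β') ≠ g (J j) β' := by
    by_contra hc
    have he : m (orI (gQ Q) β') = m β' := by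
      rw [hm, hm]
      congr 1
      funext j
      by_contra hn
      exact hc ⟨j, hn⟩
    rw [h2, hmf] at he
    exact Bool.noConfusion he
  obtain ⟨j, hj⟩ := h3
  have h4 : g (J j) β' = false := by
    by_contra hc
    rw [Bool.not_eq_false] at hc
    exact hj (by rw [mono_true (hrun.mono (J j)) (le_orI_right _ _) hc, hc])
  have h5 : g (J j) (orI (gQ Q) β') = true := by
    by_contra hc
    rw [Bool.not_eq_true] at hc
    exact hj (by rw [hc, h4])
  have h6 : AccQ l (F (J j)) Q := by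
    by_contra hc
    exact hQ ⟨J j, hlv j, h5, hc⟩
  obtain ⟨K, hK, hKl, hKQ⟩ := h6
  exact ⟨j, h4, K, hK, hKl, hKQ.trans (mem_KS.mp (hXK hQX)).1⟩

end Pool.Agent.HM
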